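import Mathlib

set_option autoImplicit false

namespace Pool.Agent.Results.MP_680d10_gt.Diag

open Set Filter Topology unitInterval

variable {Z : Type} [MetricSpace Z]

/-- Absolute continuity of a map `[0,1] → Z`. -/
def AC (h : I → Z) : Prop :=
  ∀ ε > (0 : ℝ), ∃ δ > (0 : ℝ), ∀ (n : ℕ) (a b : ℕ → I), (∀ k < n, a k < b k) → (∀ k, k + 1 < n → b k ≤ a (k + 1)) →
    ∑ k ∈ Finset.range n, ((b k : ℝ) - a k) < δ → ∑ k ∈ Finset.range n, dist (h (b k)) (h (a k)) < ε

/-- Absolute Baire-one maps `[0,1] → Z`. -/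
def AbsB1 (g : I → Z) : Prop :=
  ∃ G : ℕ → I → Z, (∀ n, Continuous (G n)) ∧ ∀ x, Tendsto (fun n => G n x) atTop (𝓝 (g x)) ∧
    Summable fun n => dist (G (n + 1) x) (G n x)

lemma AC.cont {h : I → Z} (H : AC h) : Continuous h := Metric.continuous_iff.2 fun y ε e0 => by
  obtain ⟨δ, d0, hδ⟩ := H ε e0
  refine ⟨δ, d0, fun x hx => ?_⟩
  rw [Subtype.dist_eq, Real.dist_eq, abs_lt] at hx
  rcases lt_trichotomy x y with e | rfl | e
  · simpa [dist_comm] using hδ 1 (fun _ => x) (fun _ => y) (fun _ _ => e) (by simp) (by simp; linarith)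
  · simpa using e0
  · simpa using hδ 1 (fun _ => y) (fun _ => x) (fun _ _ => e) (by simp) (by simp; linarith)

lemma good (G : ℝ → I → Z) (c1 : ∀ y, Continuous (G · y)) (c2 : ∀ x, Continuous (G x)) {ε a b : ℝ} (e0 : 0 < ε)
    (ab : a < b) : ∃ c d, a ≤ c ∧ c < d ∧ d ≤ b ∧ ∀ x ∈ Icc c d, ∀ x' ∈ Icc c d, ∀ y, dist (G x y) (G x' y) ≤ ε := by
  obtain ⟨t, t1, t2⟩ := (dense_iUnion_interior_of_closed (f := fun m : ℕ => ⋂ y, ⋂ y', ⋂ _ : dist y y' < 1 / ((m : ℝ) + 1),
    {x | dist (G x y) (G x y') ≤ ε / 6}) (fun m => isClosed_iInter fun y => isClosed_iInter fun y' =>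
      isClosed_iInter fun _ => isClosed_le ((c1 y).dist (c1 y')) continuous_const) (eq_univ_of_forall fun x => by
      obtain ⟨δ, d0, h⟩ := Metric.uniformContinuous_iff.1 (CompactSpace.uniformContinuous_of_continuous (c2 x))
        (ε / 6) (by positivity)
      obtain ⟨m, hm⟩ := exists_nat_one_div_lt d0
      exact mem_iUnion.2 ⟨m, mem_iInter₂.2 fun y y' => mem_iInter.2 fun e => (h (e.trans hm)).le⟩)).exists_mem_open isOpen_Ioo
      (nonempty_Ioo.2 ab)
  obtain ⟨m, hm⟩ := mem_iUnion.1 t1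
  obtain ⟨T, -, T1, T2⟩ := finite_cover_balls_of_compact (isCompact_univ (X := I)) (Nat.one_div_pos_of_nat (n := m))
  obtain ⟨r, r0, hr⟩ := Metric.mem_nhds_iff.1 (inter_mem (inter_mem (mem_interior_iff_mem_nhds.1 hm)
    (isOpen_Ioo.mem_nhds t2)) ((biInter_mem T1).2 fun y _ => (c1 y).continuousAt.preimage_mem_nhds
      (Metric.ball_mem_nhds _ (show 0 < ε / 6 by positivity))))
  have k : ∀ x ∈ Icc (t - r / 2) (t + r / 2), x ∈ Metric.ball t r := fun x hx => by
    rw [Real.ball_eq_Ioo]; constructor <;> linarith [hx.1, hx.2]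
  have l : ∀ x ∈ Icc (t - r / 2) (t + r / 2), ∀ y, dist (G x y) (G t y) ≤ ε / 2 := fun x hx y => by
    obtain ⟨z, z1, z2⟩ := mem_iUnion₂.1 (T2 (mem_univ y))
    have e1 : dist (G x y) (G x z) ≤ ε / 6 := mem_iInter.1 (mem_iInter₂.1 (hr (k x hx)).1.1 y z) z2
    have e2 : dist (G t y) (G t z) ≤ ε / 6 := mem_iInter.1 (mem_iInter₂.1 (interior_subset hm) y z) z2
    have e3 : dist (G x z) (G t z) < ε / 6 := mem_iInter₂.1 (hr (k x hx)).2 z z1
    linarith [dist_triangle4 (G x y) (G x z) (G t z) (G t y), dist_comm (G t y) (G t z)]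
  exact ⟨t - r / 2, t + r / 2, (hr (k _ ⟨le_rfl, by linarith⟩)).1.2.1.le, by linarith,
    (hr (k _ ⟨by linarith, le_rfl⟩)).1.2.2.le, fun x hx x' hx' y => by
      linarith [l x hx y, l x' hx' y, dist_triangle_right (G x y) (G x' y) (G t y)]⟩

lemma stair (F : ℝ → ℝ → Z) (c1 : ∀ y, Continuous (F · y)) (c2 : ∀ x, Continuous (F x)) {ε h : ℝ} (e0 : 0 ≤ ε)
    (h0 : 0 < h) (H : ∀ a b, a < b → ∃ c d, a ≤ c ∧ c < d ∧ d ≤ b ∧
      ∀ x ∈ Icc c d, ∀ x' ∈ Icc c d, ∀ y, dist (F x y) (F x' y) ≤ ε) (k : ℕ) :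
    ∃ g : ℝ → Z, Continuous g ∧ (∀ x, k * h ≤ x → g x = F x ((k - 2) * h)) ∧
      ∀ x ∈ Icc 0 (k * h), ∃ y ∈ Icc (x - 3 * h) (x - h), dist (g x) (F x y) ≤ ε := by
  induction k with
  | zero => exact ⟨_, c1 _, fun _ _ => rfl, fun x hx => ⟨_, by
      simp at hx ⊢; constructor <;> linarith, (dist_self _).trans_le e0⟩⟩
  | succ k ih =>
    obtain ⟨g, g1, g2, g3⟩ := ih
    obtain ⟨c, d, e1, e2, e3, e4⟩ := H (k * h) ((k + 1) * h) (by linarith)
    have e5 : 0 < d - c := sub_pos.2 e2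
    refine ⟨fun x => if x ≤ c then g x else if x ≤ (c + d) / 2 then F c ((k - 2) * h + h * ((x - c) / ((d - c) / 2)))
      else F (min x (2 * x - d)) ((k - 1) * h), g1.if_le (((c2 c).comp (by fun_prop)).if_le
        ((c1 _).comp (by fun_prop)) continuous_id continuous_const fun x (hx : x = _) => ?_) continuous_id continuous_const
        fun x (hx : x = _) => ?_, fun x hx => ?_, fun x hx => ?_⟩
    · rw [hx, min_eq_right (by linarith), Function.comp_apply, show (c + d) / 2 - c = (d - c) / 2 by ring, div_self (by linarith),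
        show 2 * ((c + d) / 2) - d = c by ring]
      congr 1; ring
    · rw [hx, if_pos (by linarith), g2 c e1]; simp
    · push_cast at hx ⊢
      rw [if_neg (by linarith), if_neg (by linarith), min_eq_left (by linarith)]
      congr 1; ring
    have hx2 := hx.2
    push_cast at hx2
    dsimp only
    split_ifs with a1 a2
    · rcases le_total x (k * h) with a3 | a3
      · exact g3 x ⟨hx.1, a3⟩
      · exact ⟨(k - 2) * h, ⟨by linarith, by linarith⟩, by rw [g2 x a3]; exact (dist_self _).trans_le e0⟩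
    · have b1 : 0 ≤ h * ((x - c) / ((d - c) / 2)) := mul_nonneg h0.le (div_nonneg (by linarith) (by linarith))
      have b2 : h * ((x - c) / ((d - c) / 2)) ≤ h :=
        mul_le_of_le_one_right h0.le ((div_le_one (by linarith)).2 (by linarith))
      exact ⟨_, ⟨by linarith, by linarith⟩, e4 c ⟨le_rfl, e2.le⟩ x ⟨by linarith, by linarith⟩ _⟩
    · refine ⟨(k - 1) * h, ⟨by linarith, by linarith⟩, ?_⟩
      rcases le_total d x with a3 | a3
      · rw [min_eq_left (by linarith)]; exact (dist_self _).trans_le e0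
      · rw [min_eq_right (by linarith)]
        exact e4 _ ⟨by linarith, by linarith⟩ x ⟨by linarith, a3⟩ _

theorem result (Z : Type) [MetricSpace Z] (f : I × I → Z) (h1 : ∀ y, AC fun x => f (x, y))
    (h2 : ∀ x, AC fun y => f (x, y)) : AbsB1 fun x => f (x, x) := by
  let p : ℝ → I := projIcc 0 1 zero_le_one
  have c1 : ∀ y, Continuous fun x => f (p x, y) := fun y => (h1 y).cont.comp continuous_projIcc
  choose g g1 _ g3 using fun n : ℕ => stair (fun x y => f (p x, p y)) (fun y => c1 _)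
    (fun x => (h2 _).cont.comp continuous_projIcc) (ε := (1 / 2) ^ n) (h := (1 / 4) ^ n) (by positivity) (by positivity)
    (fun a b ab => by
      obtain ⟨c, d, e1, e2, e3, e4⟩ := good (fun x y => f (p x, y)) c1 (fun x => (h2 _).cont)
        (show (0 : ℝ) < (1 / 2) ^ n by positivity) ab
      exact ⟨c, d, e1, e2, e3, fun x hx x' hx' y => e4 x hx x' hx' _⟩) (4 ^ n)
  refine ⟨fun n x => g n x, fun n => (g1 n).comp continuous_subtype_val, fun x => ?_⟩
  choose y y1 y2 using fun n => g3 n x ⟨x.2.1, by simpa using x.2.2⟩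
  simp only [p, projIcc_val] at y2
  have t0 := tendsto_pow_atTop_nhds_zero_of_lt_one (r := (1 / 4 : ℝ)) (by norm_num) (by norm_num)
  have t1 : Tendsto y atTop (𝓝 x) := tendsto_of_tendsto_of_tendsto_of_le_of_le
    (by simpa using tendsto_const_nhds.sub (t0.const_mul 3)) (by simpa using tendsto_const_nhds.sub t0)
    (fun n => (y1 n).1) fun n => (y1 n).2
  have t2 : Tendsto (fun n => p (y n)) atTop (𝓝 x) := by
    simpa [p, Function.comp_def] using (continuous_projIcc (h := zero_le_one).tendsto (x : ℝ)).comp t1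
  have s1 : Summable fun n => dist (f (x, p (y (n + 1)))) (f (x, p (y n))) := by
    have p4 : ∀ n, (0 : ℝ) < (1 / 4) ^ n := fun n => by positivity
    rcases eq_or_lt_of_le x.2.1 with e | e
    · simp [p, fun n => projIcc_of_le_left zero_le_one (show y n ≤ 0 by linarith [(y1 n).2, p4 n])]
    obtain ⟨δ, d0, hδ⟩ := h2 x 1 one_pos
    obtain ⟨N, hN⟩ := eventually_atTop.1 (t1.eventually (lt_mem_nhds (show max 0 (x - δ) < (x : ℝ) by
      simp [e, d0])))
    have q : ∀ n, (p (y (n + N)) : ℝ) = y (n + N) := fun n => congrArg Subtype.val (projIcc_of_mem zero_le_one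
      ⟨(le_max_left _ _).trans (hN _ le_add_self).le, by linarith [(y1 (n + N)).2, p4 (n + N), x.2.2]⟩)
    refine (summable_nat_add_iff N).1 (summable_of_sum_range_le (c := 1) (fun _ => dist_nonneg) fun n => ?_)
    simp only [add_right_comm _ N 1]
    refine (hδ n (fun k => p (y (k + N))) (fun k => p (y (k + 1 + N))) (fun k _ => ?_) (fun _ _ => le_rfl) ?_).le
    · rw [← Subtype.coe_lt_coe, q, q]
      have := (y1 (k + 1 + N)).1
      rw [add_right_comm, pow_succ] at this
      rw [add_right_comm]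
      linarith [(y1 (k + N)).2, p4 (k + N)]
    · rw [Finset.sum_range_sub fun k => (p (y (k + N)) : ℝ), q, q]
      linarith [(y1 (n + N)).2, p4 (n + N), hN (0 + N) le_add_self, le_max_right 0 (x - δ)]
  refine ⟨(((h2 x).cont.tendsto x).comp t2).congr_dist (squeeze_zero (fun _ => dist_nonneg)
    (fun n => (dist_comm _ _).trans_le (y2 n)) (tendsto_pow_atTop_nhds_zero_of_lt_one (by norm_num) (by norm_num))),
    Summable.of_nonneg_of_le (fun _ => dist_nonneg) (fun n => (dist_triangle4 _ _ _ _).trans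
      (add_le_add (add_le_add (y2 (n + 1)) le_rfl) ((dist_comm _ _).trans_le (y2 n))))
      ((((summable_nat_add_iff 1).2 summable_geometric_two).add s1).add summable_geometric_two)⟩

end Pool.Agent.Results.MP_680d10_gt.Diag
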